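import Pool.Agent.H73.PH.Main

set_option autoImplicit false

/-!
# The asymptotic form
-/

namespace Pool.Agent.H73.PH

open Finset Filter Topology Pool.Agent.TH375.KL

/-- a lower bound for the number of primes up to a power of the logarithm -/
theorem pi_log {κ : ℝ} (hκ : 1 < κ) : ∃ c₁ : ℝ, 0 < c₁ ∧ ∀ N : ℕ, 1 < Real.log N →
    c₁ * Real.log N ^ ((κ + 1) / 2) ≤ Nat.primeCounting ⌈Real.log N ^ κ⌉₊ := by
  obtain ⟨C, hC, hcheb⟩ := cheb
  set s : ℝ := (κ - 1) / (2 * κ) with hs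
  have hκ0 : 0 < κ := by linarith
  have hs0 : 0 < s := div_pos (by linarith) (by linarith)
  have hs1 : s < 1 := by
    rw [hs, div_lt_one (by linarith)]
    linarith
  refine ⟨s / C, by positivity, fun N hN => ?_⟩
  set L := Real.log N with hL
  have hL0 : 0 < L := by linarith
  set y : ℕ := ⌈L ^ κ⌉₊ with hy
  have hyL : L ^ κ ≤ y := Nat.le_ceil _
  have h1 : 1 < L ^ κ := Real.one_lt_rpow hN hκ0
  have hy1 : (1 : ℝ) < y := lt_of_lt_of_le h1 hyL
  have hy2 : 2 ≤ y := by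
    have : (1 : ℕ) < y := by exact_mod_cast hy1
    omega
  have hy0 : (0 : ℝ) < y := by linarith
  have h2 := hcheb y hy2
  have h3 : Real.log y ≤ (y : ℝ) ^ s / s := Real.log_le_rpow_div hy0.le hs0
  have hpi : (0 : ℝ) ≤ Nat.primeCounting y := Nat.cast_nonneg _
  have h4 : (y : ℝ) ≤ C * (Nat.primeCounting y * ((y : ℝ) ^ s / s)) := by
    refine h2.trans ?_
    gcongr
  have hys : 0 < (y : ℝ) ^ s := Real.rpow_pos_of_pos hy0 _
  have h5 : (y : ℝ) = (y : ℝ) ^ (1 - s) * (y : ℝ) ^ s := by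
    rw [← Real.rpow_add hy0, sub_add_cancel, Real.rpow_one]
  have h6 : (y : ℝ) ^ (1 - s) ≤ C * Nat.primeCounting y / s := by
    have h7 : (y : ℝ) ^ (1 - s) * (y : ℝ) ^ s ≤ (C * Nat.primeCounting y / s) * (y : ℝ) ^ s := by
      rw [← h5]
      calc (y : ℝ) ≤ C * (Nat.primeCounting y * ((y : ℝ) ^ s / s)) := h4
        _ = _ := by ring
    exact le_of_mul_le_mul_right h7 hys
  have h7 : L ^ ((κ + 1) / 2) ≤ (y : ℝ) ^ (1 - s) := by
    have h8 : L ^ ((κ + 1) / 2) = (L ^ κ) ^ (1 - s) := by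
      rw [← Real.rpow_mul hL0.le]
      congr 1
      rw [hs]
      field_simp
      ring
    rw [h8]
    exact Real.rpow_le_rpow (by positivity) hyL (by linarith)
  have h8 : L ^ ((κ + 1) / 2) ≤ C * Nat.primeCounting y / s := h7.trans h6
  rw [le_div_iff₀ hs0] at h8
  rw [div_mul_eq_mul_div, div_le_iff₀ hC]
  linarith

/-- the law for almost all integers -/
theorem main {F : ℕ → ℤ} {α β : ℤ} {B : ℕ} (hα : α ≠ 0) (hF : MultLin F α β B)
    {ε η κ : ℝ} (hε : 0 < ε) (hη : 0 < η) (hκ : 1 < κ) : ∃ c : ℝ, 0 < c ∧ ∃ N₀ : ℕ,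
    ∀ N : ℕ, N₀ ≤ N → ∀ h : ∀ p : ℕ, ZMod p → ℝ, (∀ p a, |h p a| ≤ 1) →
    ∀ T : Finset ℕ, (∀ n ∈ T, 1 ≤ n ∧ n ≤ N ∧ F n ≠ 0 ∧ ∃ x : ℕ, Real.log N ^ κ ≤ x ∧
      (x : ℝ) ≤ (N : ℝ) ^ c ∧ ε * Nat.primeCounting x < |dev h x (F n)|) →
    (T.card : ℝ) ≤ η * N := by
  classical
  -- we may assume that `ε ≤ 1`
  wlog hε1 : ε ≤ 1 generalizing ε with H
  · obtain ⟨c, hc, N₀, h1⟩ := H (ε := 1) (by norm_num) (le_refl _)
    refine ⟨c, hc, N₀, fun N hN h hh T hT => h1 N hN h hh T fun n hn => ?_⟩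
    obtain ⟨h2, h3, h4, x, h5, h6, h7⟩ := hT n hn
    refine ⟨h2, h3, h4, x, h5, h6, lt_of_le_of_lt ?_ h7⟩
    have : (0 : ℝ) ≤ Nat.primeCounting x := Nat.cast_nonneg _
    push Not at hε1
    nlinarith
  obtain ⟨C, hC, hcount⟩ := count_bad
  obtain ⟨c₁, hc₁, hpi⟩ := pi_log hκ
  set c : ℝ := min (η / 64) 1 with hc
  have hc0 : 0 < c := lt_min (by positivity) one_pos
  have hc1 : c ≤ 1 := min_le_right _ _
  have hcη : c ≤ η / 64 := min_le_left _ _
  set κ' : ℝ := (κ + 1) / 2 with hκ'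
  have hκ'1 : 1 < κ' := by rw [hκ']; linarith
  set C' : ℝ := C / ε ^ 3 with hC'
  have hC'0 : 0 < C' := by positivity
  set A : ℝ := (α.natAbs : ℝ) with hA
  have hlog : Tendsto (fun N : ℕ => Real.log (N : ℝ)) atTop atTop :=
    Real.tendsto_log_atTop.comp tendsto_natCast_atTop_atTop
  -- the limits
  have l1 : Tendsto (fun N : ℕ => (N : ℝ) ^ (-(1 / 2) : ℝ)) atTop (𝓝 0) :=
    (tendsto_rpow_neg_atTop (by norm_num)).comp tendsto_natCast_atTop_atTop
  have l2 : Tendsto (fun N : ℕ => 4 * Real.log 8 * (Real.log N)⁻¹) atTop (𝓝 (4 * Real.log 8 * 0)) :=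
    (tendsto_inv_atTop_zero.comp hlog).const_mul _
  have l3 : Tendsto (fun N : ℕ => 2 * (N : ℝ) ^ (-(2 * c))) atTop (𝓝 (2 * 0)) :=
    ((tendsto_rpow_neg_atTop (by positivity)).comp tendsto_natCast_atTop_atTop).const_mul _
  have l4 : Tendsto (fun N : ℕ => C' / c₁ * (Real.log N ^ (-κ') + Real.log N ^ (-(κ' - 1)))) atTop
      (𝓝 (C' / c₁ * (0 + 0))) :=
    (((tendsto_rpow_neg_atTop (by linarith)).comp hlog).add
      ((tendsto_rpow_neg_atTop (by linarith)).comp hlog)).const_mul _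
  have l5 : Tendsto (fun N : ℕ => C' * (Real.log N ^ (2 : ℝ) / (N : ℝ) ^ c)) atTop
      (𝓝 (C' * 0)) :=
    (((isLittleO_log_rpow_rpow_atTop 2 hc0).tendsto_div_nhds_zero).comp
      tendsto_natCast_atTop_atTop).const_mul _
  have lsum := (((l1.add l2).add l3).add l4).add l5
  simp only [mul_zero, add_zero] at lsum
  have hev := (tendsto_order.1 lsum).2 (η / 2) (by positivity)
  -- the condition on the number of primes
  have m1 : Tendsto (fun N : ℕ => (2 * B / Real.log 2) * Real.log N ^ (-(κ' - 1)) +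
      (2 * B + 2 * A) * Real.log N ^ (-κ')) atTop (𝓝 ((2 * B / Real.log 2) * 0 + (2 * B + 2 * A) * 0)) :=
    (((tendsto_rpow_neg_atTop (by linarith)).comp hlog).const_mul _).add
      (((tendsto_rpow_neg_atTop (by linarith)).comp hlog).const_mul _)
  simp only [mul_zero, add_zero] at m1
  have hev2 := (tendsto_order.1 m1).2 (ε / 2 * c₁) (by positivity)
  obtain ⟨N₀, hN₀⟩ := eventually_atTop.1 ((hev.and hev2).and (hlog.eventually_gt_atTop 1))
  refine ⟨c, hc0, max N₀ 1, fun N hN h hh T hT => ?_⟩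
  obtain ⟨⟨e1, e2⟩, e3⟩ := hN₀ N ((le_max_left _ _).trans hN)
  have hN1 : 1 ≤ N := (le_max_right _ _).trans hN
  have hN0 : (0 : ℝ) < N := by exact_mod_cast hN1
  set L := Real.log N with hL
  have hL0 : 0 < L := by linarith
  set y : ℕ := ⌈L ^ κ⌉₊ with hy
  set z : ℕ := ⌊(N : ℝ) ^ c⌋₊ with hz
  set z₁ : ℕ := ⌈(N : ℝ) ^ (2 * c)⌉₊ with hz₁
  have hy2 : 2 ≤ y := by
    have h1 : 1 < L ^ κ := Real.one_lt_rpow e3 (by linarith)
    have h2 : L ^ κ ≤ y := Nat.le_ceil _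
    have : (1 : ℝ) < y := lt_of_lt_of_le h1 h2
    have : (1 : ℕ) < y := by exact_mod_cast this
    omega
  have hTsub : T ⊆ (Icc 1 N).filter fun n : ℕ => BadN F h ε y z n := by
    intro n hn
    obtain ⟨h1, h2, h3, x, h4, h5, h6⟩ := hT n hn
    rw [mem_filter, mem_Icc]
    exact ⟨⟨h1, h2⟩, h3, x, Nat.ceil_le.2 h4, Nat.le_floor h5, h6⟩
  by_cases hyz : y ≤ z
  swap
  · have hT0 : T = ∅ := by
      rw [eq_empty_iff_forall_notMem]
      intro n hn
      have := hTsub hn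
      rw [mem_filter] at this
      obtain ⟨_, _, x, h1, h2, _⟩ := this
      omega
    rw [hT0, card_empty, Nat.cast_zero]
    positivity
  have hN2c : 1 ≤ (N : ℝ) ^ (2 * c) := Real.one_le_rpow (by exact_mod_cast hN1) (by positivity)
  have hz₁ge : (N : ℝ) ^ (2 * c) ≤ z₁ := Nat.le_ceil _
  have hz₁1 : 1 ≤ z₁ := by
    have : (1 : ℝ) ≤ z₁ := hN2c.trans hz₁ge
    exact_mod_cast this
  have hz₁le : (z₁ : ℝ) ≤ 2 * (N : ℝ) ^ (2 * c) := by
    have := Nat.ceil_lt_add_one (by positivity : 0 ≤ (N : ℝ) ^ (2 * c))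
    linarith
  have hz₁0 : (0 : ℝ) < z₁ := by exact_mod_cast hz₁1
  have hpiy := hpi N e3
  rw [← hL, ← hy] at hpiy
  have hLκ : 0 < L ^ κ' := Real.rpow_pos_of_pos hL0 _
  have hpiy0 : (0 : ℝ) < Nat.primeCounting y := lt_of_lt_of_le (by positivity) hpiy
  have r1 : L ^ (-κ') = (L ^ κ')⁻¹ := Real.rpow_neg hL0.le _
  have r2 : L ^ (-(κ' - 1)) = L * (L ^ κ')⁻¹ := by
    rw [← Real.rpow_neg hL0.le]
    have : -(κ' - 1) = 1 + -κ' := by ring
    rw [this, Real.rpow_add hL0, Real.rpow_one]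
  have ht : 2 * ((B * (Nat.log 2 N + 1) + α.natAbs : ℕ) : ℝ) ≤ ε / 2 * Nat.primeCounting y := by
    have h1 : (Nat.log 2 N : ℝ) ≤ L / Real.log 2 := by
      have h2 : (2 : ℝ) ^ (Nat.log 2 N) ≤ N := by
        exact_mod_cast Nat.pow_log_le_self 2 (by omega)
      rw [le_div_iff₀ (Real.log_pos (by norm_num)), ← Real.log_pow]
      exact Real.log_le_log (by positivity) h2
    have h2 : 2 * ((B * (Nat.log 2 N + 1) + α.natAbs : ℕ) : ℝ) ≤
        (2 * B / Real.log 2) * L + (2 * B + 2 * A) := by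
      push_cast
      have h3 : (B : ℝ) * (Nat.log 2 N : ℝ) ≤ B * (L / Real.log 2) :=
        mul_le_mul_of_nonneg_left h1 (Nat.cast_nonneg _)
      calc 2 * ((B : ℝ) * ((Nat.log 2 N : ℝ) + 1) + (α.natAbs : ℝ)) =
            2 * (B * (Nat.log 2 N : ℝ)) + (2 * B + 2 * A) := by rw [hA]; ring
        _ ≤ 2 * (B * (L / Real.log 2)) + (2 * B + 2 * A) := by linarith
        _ = _ := by ring
    rw [r1, r2] at e2
    have h3 : ((2 * B / Real.log 2) * L + (2 * B + 2 * A)) * (L ^ κ')⁻¹ < ε / 2 * c₁ := by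
      calc _ = (2 * B / Real.log 2) * (L * (L ^ κ')⁻¹) + (2 * B + 2 * A) * (L ^ κ')⁻¹ := by ring
        _ < _ := e2
    have h4 : (2 * B / Real.log 2) * L + (2 * B + 2 * A) < ε / 2 * c₁ * L ^ κ' := by
      rw [← div_eq_mul_inv, div_lt_iff₀ hLκ] at h3
      exact h3
    calc _ ≤ (2 * B / Real.log 2) * L + (2 * B + 2 * A) := h2
      _ ≤ ε / 2 * c₁ * L ^ κ' := h4.le
      _ = ε / 2 * (c₁ * L ^ κ') := by ring
      _ ≤ _ := mul_le_mul_of_nonneg_left hpiy (by positivity)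
  have hmain := hcount F α β B hα hF h hh ε hε hε1 N y z z₁ hN1 hy2 hyz hz₁1 ht
  rw [← hC'] at hmain
  have hT1 : (T.card : ℝ) ≤ (Ns N z₁).card + C' * (N * (1 + L) / Nat.primeCounting y +
        N / z₁ * (z * Real.log z ^ 2)) := by
    refine le_trans ?_ hmain
    exact_mod_cast card_le_card hTsub
  refine hT1.trans ?_
  -- the parts
  have hNs := Ns_card N z₁
  have hSm := smooth_card N z₁ hN1 hz₁1
  have p1 : ((Sm N z₁).card : ℝ) ≤ N * ((N : ℝ) ^ (-(1 / 2) : ℝ) + 4 * Real.log 8 * L⁻¹ + 8 * c) := by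
    have h1 : Real.log z₁ ≤ Real.log 2 + 2 * c * L := by
      calc Real.log z₁ ≤ Real.log (2 * (N : ℝ) ^ (2 * c)) := Real.log_le_log hz₁0 hz₁le
        _ = _ := by rw [Real.log_mul (by norm_num) (by positivity), Real.log_rpow hN0]
    have h2 : Real.log 2 + Real.log 4 = Real.log 8 := by
      rw [← Real.log_mul (by norm_num) (by norm_num)]
      norm_num
    have h3 : Real.sqrt N = N * (N : ℝ) ^ (-(1 / 2) : ℝ) := by
      rw [Real.sqrt_eq_rpow]
      nth_rw 2 [← Real.rpow_one (N : ℝ)]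
      rw [← Real.rpow_add hN0]
      norm_num
    have h4 : ((Sm N z₁).card : ℝ) * L ≤
        (N * ((N : ℝ) ^ (-(1 / 2) : ℝ) + 4 * Real.log 8 * L⁻¹ + 8 * c)) * L := by
      calc ((Sm N z₁).card : ℝ) * L ≤
            Real.sqrt N * L + 4 * N * (Real.log z₁ + Real.log 4) := hSm
        _ ≤ Real.sqrt N * L + 4 * N * (Real.log 8 + 2 * c * L) := by
            have : Real.log z₁ + Real.log 4 ≤ Real.log 8 + 2 * c * L := by linarith
            gcongr
        _ = _ := by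
            rw [h3]
            field_simp
            ring
    exact le_of_mul_le_mul_right h4 hL0
  have p2 : 2 * N / ((z₁ : ℝ) + 1) ≤ N * (2 * (N : ℝ) ^ (-(2 * c))) := by
    rw [Real.rpow_neg hN0.le]
    have h1 : (N : ℝ) ^ (2 * c) ≤ (z₁ : ℝ) + 1 := by linarith
    calc 2 * N / ((z₁ : ℝ) + 1) ≤ 2 * N / (N : ℝ) ^ (2 * c) := by gcongr
      _ = _ := by ring
  have p3 : N * (1 + L) / Nat.primeCounting y ≤ N * (1 / c₁ * (L ^ (-κ') + L ^ (-(κ' - 1)))) := by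
    rw [r1, r2]
    calc N * (1 + L) / Nat.primeCounting y ≤ N * (1 + L) / (c₁ * L ^ κ') := by gcongr
      _ = _ := by field_simp
  have p4 : N / z₁ * (z * Real.log z ^ 2) ≤ N * (L ^ (2 : ℝ) / (N : ℝ) ^ c) := by
    have hzle : (z : ℝ) ≤ (N : ℝ) ^ c := Nat.floor_le (by positivity)
    have hz2 : 2 ≤ z := hy2.trans hyz
    have hz0 : (0 : ℝ) < z := by
      have : 0 < z := by omega
      exact_mod_cast this
    have hlz0 : 0 ≤ Real.log z := Real.log_nonneg (by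
      have : 1 ≤ z := by omega
      exact_mod_cast this)
    have hlz : Real.log z ≤ L := by
      calc Real.log z ≤ Real.log ((N : ℝ) ^ c) := Real.log_le_log hz0 hzle
        _ = c * L := Real.log_rpow hN0 _
        _ ≤ 1 * L := mul_le_mul_of_nonneg_right hc1 hL0.le
        _ = L := one_mul _
    have h1 : (N : ℝ) ^ (2 * c) = (N : ℝ) ^ c * (N : ℝ) ^ c := by
      rw [← Real.rpow_add hN0]
      congr 1
      ring
    have hNc : 0 < (N : ℝ) ^ c := Real.rpow_pos_of_pos hN0 _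
    have h2 : (z : ℝ) * Real.log z ^ 2 ≤ (N : ℝ) ^ c * L ^ 2 := by gcongr
    rw [Real.rpow_two]
    calc (N : ℝ) / z₁ * (z * Real.log z ^ 2) ≤
          N / ((N : ℝ) ^ c * (N : ℝ) ^ c) * ((N : ℝ) ^ c * L ^ 2) := by
            rw [← h1]
            gcongr
      _ = _ := by field_simp
  have p5 : ((Ns N z₁).card : ℝ) ≤ (Sm N z₁).card + 2 * N / ((z₁ : ℝ) + 1) := hNs
  have p6 : C' * (N * (1 + L) / Nat.primeCounting y + N / z₁ * (z * Real.log z ^ 2)) ≤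
      C' * (N * (1 / c₁ * (L ^ (-κ') + L ^ (-(κ' - 1)))) + N * (L ^ (2 : ℝ) / (N : ℝ) ^ c)) :=
    mul_le_mul_of_nonneg_left (add_le_add p3 p4) hC'0.le
  have p7 : (N : ℝ) * ((N : ℝ) ^ (-(1 / 2) : ℝ) + 4 * Real.log 8 * L⁻¹ + 2 * (N : ℝ) ^ (-(2 * c)) +
      C' / c₁ * (L ^ (-κ') + L ^ (-(κ' - 1))) + C' * (L ^ (2 : ℝ) / (N : ℝ) ^ c)) ≤ N * (η / 2) :=
    mul_le_mul_of_nonneg_left e1.le hN0.le
  have p8 : (N : ℝ) * (8 * c) ≤ N * (η / 8) := by
    apply mul_le_mul_of_nonneg_left _ hN0.le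
    linarith
  have p9 : C' * (N * (1 / c₁ * (L ^ (-κ') + L ^ (-(κ' - 1)))) + N * (L ^ (2 : ℝ) / (N : ℝ) ^ c)) =
      N * (C' / c₁ * (L ^ (-κ') + L ^ (-(κ' - 1))) + C' * (L ^ (2 : ℝ) / (N : ℝ) ^ c)) := by
    ring
  have p10 : 0 ≤ (N : ℝ) * η := by positivity
  linarith

end Pool.Agent.H73.PH
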