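import Pool.Agent.H73.PH.Smooth
import Pool.Agent.H73.KS.Bad
import Pool.Graph.R_seed8.TH375.KL.Scales

set_option autoImplicit false

/-!
# Functions of residues at the values of multiplicative functions which are linear at the primes
-/

namespace Pool.Agent.H73.PH

open Finset Filter Topology Pool.Agent.TH375.KL

/-- multiplicative functions with `F(p) = α p + β` for all primes `p` and `|F(n)| ≤ n ^ B` -/
structure MultLin (F : ℕ → ℤ) (α β : ℤ) (B : ℕ) : Prop where
  mul : ∀ m n : ℕ, Nat.Coprime m n → F (m * n) = F m * F n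
  prime : ∀ p : ℕ, p.Prime → F p = α * p + β
  bound : ∀ n : ℕ, 1 ≤ n → |F n| ≤ (n : ℤ) ^ B

open Classical in
/-- the function of the prime `P`, `n = m P` -/
noncomputable def GG (h : ∀ p : ℕ, ZMod p → ℝ) (α β K : ℤ) (p : ℕ) (t : ZMod p) : ℝ :=
  if ((K * α : ℤ) : ZMod p) = 0 then 0 else h p ((K : ZMod p) * ((α : ZMod p) * t + (β : ZMod p)))

theorem GG_le {h : ∀ p : ℕ, ZMod p → ℝ} (hh : ∀ p a, |h p a| ≤ 1) (α β K : ℤ) (p : ℕ)
    (t : ZMod p) : |GG h α β K p t| ≤ 1 := by
  unfold GG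
  split_ifs
  · simp
  · exact hh p _

theorem nu_GG {h : ∀ p : ℕ, ZMod p → ℝ} (α β K : ℤ) {p : ℕ} (hp : p.Prime)
    (hK : ((K * α : ℤ) : ZMod p) ≠ 0) : nu (GG h α β K) p = nu h p := by
  classical
  have fp : Fact p.Prime := ⟨hp⟩
  have e1 : ∀ f : ZMod p → ℝ, ∑ a ∈ range p, f (a : ZMod p) = ∑ t : ZMod p, f t := by
    intro f
    refine sum_nbij' (fun j : ℕ => (j : ZMod p)) ZMod.val ?_ ?_ ?_ ?_ ?_
    · intro j _
      exact mem_univ _
    · intro t _
      rw [mem_range]
      exact ZMod.val_lt t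
    · intro j hj
      rw [mem_range] at hj
      exact ZMod.val_cast_of_lt hj
    · intro t _
      exact ZMod.natCast_zmod_val t
    · intro j _
      rfl
  unfold nu
  rw [e1, e1]
  congr 1
  push_cast at hK
  have hK1 : (K : ZMod p) ≠ 0 := left_ne_zero_of_mul hK
  have hα1 : (α : ZMod p) ≠ 0 := right_ne_zero_of_mul hK
  have e2 : ∀ t : ZMod p, GG h α β K p t =
      h p ((K : ZMod p) * ((α : ZMod p) * t + (β : ZMod p))) := by
    intro t
    unfold GG
    rw [if_neg]
    push_cast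
    exact hK
  rw [sum_congr rfl fun t _ => e2 t]
  exact Fintype.sum_bijective
    (fun t : ZMod p => (K : ZMod p) * ((α : ZMod p) * t + (β : ZMod p)))
    (Function.Bijective.comp (g := fun s => (K : ZMod p) * s) (mulLeft_bijective₀ _ hK1)
      (Function.Bijective.comp (g := fun s => s + (β : ZMod p)) (AddGroup.addRight_bijective _)
        (mulLeft_bijective₀ _ hα1))) _ _ fun _ => rfl

theorem card_dvd_le {K : ℤ} (hK : K ≠ 0) {t : ℕ} (ht : K.natAbs ≤ 2 ^ t) (x : ℕ) :
    open scoped Classical in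
    ((Pr x).filter fun p : ℕ => ((K : ℤ) : ZMod p) = 0).card ≤ t := by
  classical
  refine (card_le_card ?_).trans (Pool.Agent.H73.KS.card_primeFactors_le ht)
  intro p hp
  rw [mem_filter] at hp
  unfold Pr at hp
  rw [mem_filter] at hp
  rw [Nat.mem_primeFactors]
  refine ⟨hp.1.2, ?_, by rwa [Ne, Int.natAbs_eq_zero]⟩
  have h1 := (ZMod.intCast_zmod_eq_zero_iff_dvd K p).1 hp.2
  exact Int.natCast_dvd.1 h1

/-- comparison of the deviations -/
theorem dev_compare {h : ∀ p : ℕ, ZMod p → ℝ} (hh : ∀ p a, |h p a| ≤ 1) (α β K : ℤ)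
    (hK : K * α ≠ 0) {t : ℕ} (ht : (K * α).natAbs ≤ 2 ^ t) (x P : ℕ) :
    |dev h x (K * (α * P + β)) - dev (GG h α β K) x (0 + (P : ℤ))| ≤ 2 * t := by
  classical
  unfold dev
  rw [← sum_sub_distrib]
  have e1 : ∀ p ∈ Pr x, |(h p ((K * (α * P + β) : ℤ) : ZMod p) - nu h p) -
      (GG h α β K p ((0 + (P : ℤ) : ℤ) : ZMod p) - nu (GG h α β K) p)| ≤
      if ((K * α : ℤ) : ZMod p) = 0 then 2 else 0 := by
    intro p hp
    have hpp : p.Prime := by
      unfold Pr at hp
      exact (mem_filter.1 hp).2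
    split_ifs with h1
    · have h2 : GG h α β K p ((0 + (P : ℤ) : ℤ) : ZMod p) = 0 := by
        unfold GG
        rw [if_pos h1]
      have h3 : nu (GG h α β K) p = 0 := by
        unfold nu
        have : ∀ a ∈ range p, GG h α β K p (a : ZMod p) = 0 := by
          intro a _
          unfold GG
          rw [if_pos h1]
        rw [sum_congr rfl this]
        simp
      rw [h2, h3, sub_zero, sub_zero]
      exact term_le hh p _
    · have h2 : GG h α β K p ((0 + (P : ℤ) : ℤ) : ZMod p) =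
          h p ((K * (α * P + β) : ℤ) : ZMod p) := by
        unfold GG
        rw [if_neg h1]
        congr 1
        push_cast
        ring
      rw [h2, nu_GG α β K hpp h1, sub_self, abs_zero]
  refine (abs_sum_le_sum_abs _ _).trans ((sum_le_sum e1).trans ?_)
  rw [← sum_filter, sum_const, nsmul_eq_mul, mul_comm]
  have h2 := card_dvd_le hK ht x
  have h3 : (((Pr x).filter fun p : ℕ => ((K * α : ℤ) : ZMod p) = 0).card : ℝ) ≤ t := by
    exact_mod_cast h2
  linarith

/-- the exceptional integers -/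
def BadN (F : ℕ → ℤ) (h : ∀ p : ℕ, ZMod p → ℝ) (ε : ℝ) (y z : ℕ) (n : ℕ) : Prop :=
  F n ≠ 0 ∧ ∃ x, y ≤ x ∧ x ≤ z ∧ ε * Nat.primeCounting x < |dev h x (F n)|

/-- the count of the exceptional integers -/
theorem count_bad : ∃ C : ℝ, 0 < C ∧ ∀ (F : ℕ → ℤ) (α β : ℤ) (B : ℕ), α ≠ 0 →
    MultLin F α β B → ∀ (h : ∀ p : ℕ, ZMod p → ℝ), (∀ p a, |h p a| ≤ 1) →
    ∀ ε : ℝ, 0 < ε → ε ≤ 1 → ∀ N y z z₁ : ℕ, 1 ≤ N → 2 ≤ y → y ≤ z → 1 ≤ z₁ →
    2 * ((B * (Nat.log 2 N + 1) + α.natAbs : ℕ) : ℝ) ≤ ε / 2 * Nat.primeCounting y →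
    open scoped Classical in
    (((Icc 1 N).filter fun n : ℕ => BadN F h ε y z n).card : ℝ) ≤
      (Ns N z₁).card + C / ε ^ 3 * (N * (1 + Real.log N) / Nat.primeCounting y +
        N / z₁ * (z * Real.log z ^ 2)) := by
  classical
  obtain ⟨C₀, hC₀, hall⟩ := all_scales
  refine ⟨8 * C₀, by positivity, ?_⟩
  intro F α β B hα hF h hh ε hε hε1 N y z z₁ hN hy hyz hz₁ ht
  have hN0 : (0 : ℝ) < N := by exact_mod_cast hN
  have hz₁0 : (0 : ℝ) < z₁ := by exact_mod_cast hz₁
  set t : ℕ := B * (Nat.log 2 N + 1) + α.natAbs with htd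
  have hpy : (0 : ℝ) < Nat.primeCounting y := by exact_mod_cast pi_pos hy
  -- the sets
  set E : ℕ → Finset ℕ := fun m => (Icc 1 (N / m)).filter fun P : ℕ => ∃ x, y ≤ x ∧ x ≤ z ∧
    ε / 2 * Nat.primeCounting x < |dev (GG h α β (F m)) x (0 + (P : ℤ))| with hE
  have hsub : ((Icc 1 N).filter fun n : ℕ => BadN F h ε y z n) ⊆
      Ns N z₁ ∪ (Ioc 0 (N / z₁)).biUnion fun m => (E m).image fun P => m * P := by
    intro n hn
    rw [mem_filter, mem_Icc] at hn
    obtain ⟨⟨hn1, hn2⟩, hF0, x, hx1, hx2, hx3⟩ := hn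
    rw [mem_union]
    by_cases hs : ∃ p : ℕ, p.Prime ∧ z₁ < p ∧ p ∣ n ∧ ¬ p ^ 2 ∣ n
    · right
      obtain ⟨P, hP, hPz, hPn, hPn2⟩ := hs
      obtain ⟨m, rfl⟩ := hPn
      have hm0 : 0 < m := by
        rcases Nat.eq_zero_or_pos m with h0 | h0
        · rw [h0, mul_zero] at hn1
          omega
        · exact h0
      have hPm : ¬ P ∣ m := by
        intro hd
        apply hPn2
        rw [sq]
        exact Nat.mul_dvd_mul_left P hd
      have hcop : Nat.Coprime P m := (hP.coprime_iff_not_dvd).2 hPm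
      have hFn : F (P * m) = F m * (α * P + β) := by
        rw [hF.mul P m hcop, hF.prime P hP]
        ring
      have hFm : F m ≠ 0 := by
        intro h0
        apply hF0
        rw [hFn, h0, zero_mul]
      have hmN : m ≤ N := (Nat.le_mul_of_pos_left m hP.pos).trans hn2
      have hKt : (F m * α).natAbs ≤ 2 ^ t := by
        rw [Int.natAbs_mul, htd, pow_add]
        refine Nat.mul_le_mul ?_ Nat.lt_two_pow_self.le
        have h1 := hF.bound m hm0
        have h2 : (F m).natAbs ≤ m ^ B := by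
          zify
          exact h1
        have h3 : m ^ B ≤ (2 ^ (Nat.log 2 N + 1)) ^ B := by
          apply Nat.pow_le_pow_left
          exact hmN.trans (Nat.lt_pow_succ_log_self (by norm_num) N).le
        calc (F m).natAbs ≤ m ^ B := h2
          _ ≤ (2 ^ (Nat.log 2 N + 1)) ^ B := h3
          _ = 2 ^ (B * (Nat.log 2 N + 1)) := by rw [← pow_mul, mul_comm]
      rw [mem_biUnion]
      refine ⟨m, ?_, ?_⟩
      · rw [mem_Ioc]
        refine ⟨hm0, ?_⟩
        rw [Nat.le_div_iff_mul_le (by omega)]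
        calc m * z₁ ≤ m * P := Nat.mul_le_mul_left _ hPz.le
          _ = P * m := mul_comm _ _
          _ ≤ N := hn2
      · rw [mem_image]
        refine ⟨P, ?_, mul_comm _ _⟩
        rw [hE]
        simp only
        rw [mem_filter, mem_Icc]
        refine ⟨⟨hP.pos, ?_⟩, x, hx1, hx2, ?_⟩
        · rw [Nat.le_div_iff_mul_le hm0]
          exact hn2
        · have h1 := dev_compare hh α β (F m) (mul_ne_zero hFm hα) hKt x P
          rw [← hFn] at h1
          have h2 : (Nat.primeCounting y : ℝ) ≤ Nat.primeCounting x := by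
            exact_mod_cast Nat.monotone_primeCounting hx1
          have h3 : 2 * (t : ℝ) ≤ ε / 2 * Nat.primeCounting x :=
            ht.trans (mul_le_mul_of_nonneg_left h2 (by positivity))
          have h4 := abs_sub_abs_le_abs_sub (dev h x (F (P * m)))
            (dev (GG h α β (F m)) x (0 + (P : ℤ)))
          linarith
    · left
      unfold Ns
      rw [mem_filter, mem_Icc]
      exact ⟨⟨hn1, hn2⟩, hs⟩
  have hcard : ∀ m ∈ Ioc 0 (N / z₁), (((E m).image fun P => m * P).card : ℝ) ≤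
      8 * C₀ / ε ^ 3 * (N / Nat.primeCounting y * ((m : ℝ)⁻¹) + z * Real.log z ^ 2) := by
    intro m hm
    rw [mem_Ioc] at hm
    have hm0 : (0 : ℝ) < m := by exact_mod_cast hm.1
    have h1 : (((E m).image fun P => m * P).card : ℝ) ≤ (E m).card := by
      exact_mod_cast card_image_le
    have h2 := hall (GG h α β (F m)) (GG_le hh α β (F m)) (ε / 2) (by positivity) (by linarith)
      0 (N / m) y z hy hyz
    have h3 : ((N / m : ℕ) : ℝ) ≤ N / m := Nat.cast_div_le
    have h4 : C₀ / (ε / 2) ^ 3 = 8 * C₀ / ε ^ 3 := by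
      field_simp
      ring
    rw [h4] at h2
    refine h1.trans (le_trans (le_trans (le_of_eq ?_) h2) ?_)
    · rw [hE]
    · have h5 : ((N / m : ℕ) : ℝ) / Nat.primeCounting y ≤ N / Nat.primeCounting y * ((m : ℝ)⁻¹) := by
        calc ((N / m : ℕ) : ℝ) / Nat.primeCounting y ≤ (N / m) / Nat.primeCounting y := by gcongr
          _ = _ := by field_simp
      gcongr
  have h1 : (((Icc 1 N).filter fun n : ℕ => BadN F h ε y z n).card : ℝ) ≤
      (Ns N z₁).card + ∑ m ∈ Ioc 0 (N / z₁), (((E m).image fun P => m * P).card : ℝ) := by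
    have h2 := (card_le_card hsub).trans ((card_union_le _ _).trans
      (Nat.add_le_add_left card_biUnion_le _))
    exact_mod_cast h2
  refine h1.trans ?_
  have h2 := sum_le_sum hcard
  have h3 : ∑ m ∈ Ioc 0 (N / z₁), (8 * C₀ / ε ^ 3 * (N / Nat.primeCounting y * ((m : ℝ)⁻¹) +
      z * Real.log z ^ 2)) ≤ 8 * C₀ / ε ^ 3 * (N * (1 + Real.log N) / Nat.primeCounting y +
        N / z₁ * (z * Real.log z ^ 2)) := by
    rw [← mul_sum, sum_add_distrib, ← mul_sum, sum_const, nsmul_eq_mul, Nat.card_Ioc, Nat.sub_zero]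
    refine mul_le_mul_of_nonneg_left ?_ (by positivity)
    have h4 : ∑ m ∈ Ioc 0 (N / z₁), ((m : ℝ)⁻¹) ≤ 1 + Real.log N := by
      have h5 : ∑ m ∈ Ioc 0 (N / z₁), ((m : ℝ)⁻¹) ≤ ∑ m ∈ Ioc 0 N, ((m : ℝ)⁻¹) := by
        refine sum_le_sum_of_subset_of_nonneg ?_ fun _ _ _ => by positivity
        exact Ioc_subset_Ioc_right (Nat.div_le_self _ _)
      have h6 := harmonic_le_one_add_log N
      have h7 : ∑ d ∈ Ioc 0 N, ((d : ℝ)⁻¹) = ((harmonic N : ℚ) : ℝ) := by
        rw [harmonic_eq_sum_Icc]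
        push_cast
        rfl
      rw [h7] at h5
      linarith
    have h5 : ((N / z₁ : ℕ) : ℝ) ≤ N / z₁ := Nat.cast_div_le
    have h6 : (N : ℝ) / Nat.primeCounting y * ∑ m ∈ Ioc 0 (N / z₁), ((m : ℝ)⁻¹) ≤
        N * (1 + Real.log N) / Nat.primeCounting y := by
      calc (N : ℝ) / Nat.primeCounting y * ∑ m ∈ Ioc 0 (N / z₁), ((m : ℝ)⁻¹) ≤
            N / Nat.primeCounting y * (1 + Real.log N) := by gcongr
        _ = _ := by ring
    have h7 : ((N / z₁ : ℕ) : ℝ) * (z * Real.log z ^ 2) ≤ N / z₁ * (z * Real.log z ^ 2) := by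
      gcongr
    linarith
  linarith

end Pool.Agent.H73.PH
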