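import Mathlib

set_option autoImplicit false

/-!
# Few integers have no large prime factor
-/

namespace Pool.Agent.H73.PH

open Finset

/-- the primes up to `z` -/
def P0 (z : ℕ) : Finset ℕ := (range (z + 1)).filter Nat.Prime

theorem mem_P0 {z p : ℕ} : p ∈ P0 z ↔ p.Prime ∧ p ≤ z := by
  unfold P0
  rw [mem_filter, mem_range]
  constructor
  · rintro ⟨h1, h2⟩
    exact ⟨h2, by omega⟩
  · rintro ⟨h1, h2⟩
    exact ⟨by omega, h1⟩

theorem div_le_factorization {z p : ℕ} (hp : p.Prime) : z / p ≤ (z.factorial).factorization p := by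
  have h := Nat.factorization_factorial hp (n := z) (b := Nat.log p z + 2) (by omega)
  rw [h]
  have h1 := single_le_sum (f := fun i => z / p ^ i) (s := Ico 1 (Nat.log p z + 2))
    (fun _ _ => Nat.zero_le _) (mem_Ico.2 ⟨le_refl 1, by omega⟩)
  simpa using h1

theorem log_eq_sum {n z : ℕ} (_hn : n ≠ 0) (h : ∀ p : ℕ, p.Prime → p ∣ n → p ≤ z) :
    Real.log n = ∑ p ∈ P0 z, (n.factorization p : ℝ) * Real.log p := by
  rw [Real.log_nat_eq_sum_factorization, Finsupp.sum]
  refine sum_subset ?_ ?_
  · intro p hp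
    rw [Nat.support_factorization, Nat.mem_primeFactors] at hp
    rw [mem_P0]
    exact ⟨hp.1, h p hp.1 hp.2.1⟩
  · intro p _ hp
    rw [Finsupp.notMem_support_iff] at hp
    rw [hp]
    simp

/-- Mertens' upper bound -/
theorem sum_log_div (z : ℕ) (hz : 1 ≤ z) :
    ∑ p ∈ P0 z, Real.log p / p ≤ Real.log z + Real.log 4 := by
  have hz0 : (0 : ℝ) < z := by exact_mod_cast hz
  have h1 : Real.log (z.factorial : ℕ) =
      ∑ p ∈ P0 z, ((z.factorial).factorization p : ℝ) * Real.log p :=
    log_eq_sum (Nat.factorial_ne_zero z) fun p hp hd => (hp.dvd_factorial).1 hd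
  have h2 : ∑ p ∈ P0 z, ((z : ℝ) / p - 1) * Real.log p ≤ z * Real.log z := by
    calc ∑ p ∈ P0 z, ((z : ℝ) / p - 1) * Real.log p ≤
          ∑ p ∈ P0 z, ((z.factorial).factorization p : ℝ) * Real.log p := by
            refine sum_le_sum fun p hp => ?_
            rw [mem_P0] at hp
            have hp0 : (0 : ℝ) < p := by exact_mod_cast hp.1.pos
            have hl : 0 ≤ Real.log p := Real.log_nonneg (by exact_mod_cast hp.1.one_le)
            refine mul_le_mul_of_nonneg_right ?_ hl
            have h3 : ((z / p : ℕ) : ℝ) ≤ ((z.factorial).factorization p : ℝ) := by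
              exact_mod_cast div_le_factorization hp.1
            have h4 := Nat.lt_div_mul_add (a := z) hp.1.pos
            have h5 : (z : ℝ) < ((z / p : ℕ) : ℝ) * p + p := by exact_mod_cast h4
            have h6 : (z : ℝ) / p < ((z / p : ℕ) : ℝ) + 1 := by
              rw [div_lt_iff₀ hp0]
              linarith
            linarith
      _ = Real.log (z.factorial : ℕ) := h1.symm
      _ ≤ Real.log ((z : ℝ) ^ z) := by
            apply Real.log_le_log (by exact_mod_cast Nat.factorial_pos z)
            exact_mod_cast Nat.factorial_le_pow z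
      _ = z * Real.log z := Real.log_pow _ _
  have h3 : ∑ p ∈ P0 z, Real.log p ≤ Real.log 4 * z := by
    have := Chebyshev.theta_le_log4_mul_x (x := (z : ℝ)) (Nat.cast_nonneg z)
    rw [Chebyshev.theta_eq_sum_Icc, Nat.floor_natCast] at this
    refine le_trans (le_of_eq ?_) this
    refine sum_congr ?_ fun _ _ => rfl
    ext p
    rw [mem_P0, mem_filter, mem_Icc]
    constructor
    · rintro ⟨h1, h2⟩
      exact ⟨⟨Nat.zero_le _, h2⟩, h1⟩
    · rintro ⟨⟨_, h2⟩, h1⟩
      exact ⟨h1, h2⟩
  have h4 : ∑ p ∈ P0 z, ((z : ℝ) / p - 1) * Real.log p =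
      z * ∑ p ∈ P0 z, Real.log p / p - ∑ p ∈ P0 z, Real.log p := by
    rw [mul_sum, ← sum_sub_distrib]
    refine sum_congr rfl fun p _ => ?_
    ring
  rw [h4] at h2
  have h5 : z * ∑ p ∈ P0 z, Real.log p / p ≤ z * (Real.log z + Real.log 4) := by linarith
  exact le_of_mul_le_mul_left h5 hz0

open Classical in
/-- the integers up to `N` without prime factors larger than `z` -/
noncomputable def Sm (N z : ℕ) : Finset ℕ :=
  (Icc 1 N).filter fun n => ∀ p : ℕ, p.Prime → p ∣ n → p ≤ z

theorem sum_fact (N p : ℕ) : ∑ n ∈ Icc 1 N, (n.factorization p : ℕ) = (N.factorial).factorization p := by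
  induction N with
  | zero => simp
  | succ N ih =>
    rw [sum_Icc_succ_top (by omega), ih, Nat.factorial_succ,
      Nat.factorization_mul (by omega) (Nat.factorial_ne_zero N), Finsupp.add_apply, add_comm]

theorem smooth_card (N z : ℕ) (hN : 1 ≤ N) (hz : 1 ≤ z) :
    ((Sm N z).card : ℝ) * Real.log N ≤
      Real.sqrt N * Real.log N + 4 * N * (Real.log z + Real.log 4) := by
  classical
  have hN0 : (0 : ℝ) < N := by exact_mod_cast hN
  have hlN : 0 ≤ Real.log N := Real.log_nonneg (by exact_mod_cast hN)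
  have h1 : ∑ n ∈ Sm N z, Real.log n ≤ 2 * N * (Real.log z + Real.log 4) := by
    calc ∑ n ∈ Sm N z, Real.log n = ∑ n ∈ Sm N z, ∑ p ∈ P0 z, (n.factorization p : ℝ) *
          Real.log p := by
            refine sum_congr rfl fun n hn => ?_
            unfold Sm at hn
            rw [mem_filter, mem_Icc] at hn
            exact log_eq_sum (by omega) hn.2
      _ = ∑ p ∈ P0 z, (∑ n ∈ Sm N z, (n.factorization p : ℝ)) * Real.log p := by
            rw [sum_comm]
            exact sum_congr rfl fun p _ => (sum_mul _ _ _).symm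
      _ ≤ ∑ p ∈ P0 z, (2 * N / p) * Real.log p := by
            refine sum_le_sum fun p hp => ?_
            rw [mem_P0] at hp
            have hl : 0 ≤ Real.log p := Real.log_nonneg (by exact_mod_cast hp.1.one_le)
            refine mul_le_mul_of_nonneg_right ?_ hl
            have hp0 : (0 : ℝ) < p := by exact_mod_cast hp.1.pos
            have hp2 : (2 : ℝ) ≤ p := by exact_mod_cast hp.1.two_le
            have h2 : ∑ n ∈ Sm N z, (n.factorization p : ℝ) ≤
                ((N.factorial).factorization p : ℝ) := by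
              rw [← sum_fact]
              push_cast
              exact sum_le_sum_of_subset_of_nonneg (filter_subset _ _) fun _ _ _ => by positivity
            have h3 := Nat.factorization_factorial_le_div_pred hp.1 N
            have h4 : ((N.factorial).factorization p : ℝ) ≤ ((N / (p - 1) : ℕ) : ℝ) := by
              exact_mod_cast h3
            have h5 : ((N / (p - 1) : ℕ) : ℝ) ≤ (N : ℝ) / ((p - 1 : ℕ) : ℝ) := Nat.cast_div_le
            have h6 : ((p - 1 : ℕ) : ℝ) = (p : ℝ) - 1 := by
              rw [Nat.cast_sub hp.1.one_le, Nat.cast_one]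
            rw [h6] at h5
            have h7 : (N : ℝ) / ((p : ℝ) - 1) ≤ 2 * N / p := by
              rw [div_le_div_iff₀ (by linarith) hp0]
              nlinarith
            linarith
      _ = 2 * N * ∑ p ∈ P0 z, Real.log p / p := by
            rw [mul_sum]
            exact sum_congr rfl fun p _ => by ring
      _ ≤ 2 * N * (Real.log z + Real.log 4) := by
            have := sum_log_div z hz
            gcongr
  have h2 : ((Sm N z).card : ℝ) * Real.log N ≤
      Real.sqrt N * Real.log N + 2 * ∑ n ∈ Sm N z, Real.log n := by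
    have h3 : ((Sm N z).card : ℝ) * Real.log N = ∑ n ∈ Sm N z, Real.log N := by
      rw [sum_const, nsmul_eq_mul]
    rw [h3, ← sum_filter_add_sum_filter_not (Sm N z) (fun n => n ^ 2 ≤ N) (fun _ => Real.log N)]
    have h4 : ∑ n ∈ (Sm N z).filter (fun n => n ^ 2 ≤ N), Real.log N ≤
        Real.sqrt N * Real.log N := by
      rw [sum_const, nsmul_eq_mul]
      refine mul_le_mul_of_nonneg_right ?_ hlN
      have h5 : (Sm N z).filter (fun n => n ^ 2 ≤ N) ⊆ Icc 1 (Nat.sqrt N) := by
        intro n hn
        rw [mem_filter] at hn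
        unfold Sm at hn
        rw [mem_filter, mem_Icc] at hn
        rw [mem_Icc]
        exact ⟨hn.1.1.1, Nat.le_sqrt'.2 hn.2⟩
      have h6 := card_le_card h5
      rw [Nat.card_Icc, Nat.add_sub_cancel] at h6
      calc (((Sm N z).filter (fun n => n ^ 2 ≤ N)).card : ℝ) ≤ (Nat.sqrt N : ℝ) := by
            exact_mod_cast h6
        _ ≤ Real.sqrt N := Real.nat_sqrt_le_real_sqrt
    have h5 : ∑ n ∈ (Sm N z).filter (fun n => ¬ n ^ 2 ≤ N), Real.log N ≤
        2 * ∑ n ∈ Sm N z, Real.log n := by
      rw [mul_sum]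
      calc ∑ n ∈ (Sm N z).filter (fun n => ¬ n ^ 2 ≤ N), Real.log N ≤
            ∑ n ∈ (Sm N z).filter (fun n => ¬ n ^ 2 ≤ N), 2 * Real.log n := by
              refine sum_le_sum fun n hn => ?_
              rw [mem_filter] at hn
              have h6 : (N : ℝ) ≤ (n : ℝ) ^ 2 := by
                have := hn.2
                push Not at this
                exact_mod_cast this.le
              calc Real.log N ≤ Real.log ((n : ℝ) ^ 2) := Real.log_le_log hN0 h6
                _ = 2 * Real.log n := by rw [Real.log_pow]; norm_num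
        _ ≤ _ := by
              refine sum_le_sum_of_subset_of_nonneg (filter_subset _ _) fun n hn _ => ?_
              unfold Sm at hn
              rw [mem_filter, mem_Icc] at hn
              have : 0 ≤ Real.log n := Real.log_nonneg (by exact_mod_cast hn.1.1)
              linarith
    linarith
  linarith

open Classical in
/-- the integers up to `N` without a simple prime factor larger than `z` -/
noncomputable def Ns (N z : ℕ) : Finset ℕ :=
  (Icc 1 N).filter fun n => ¬ ∃ p : ℕ, p.Prime ∧ z < p ∧ p ∣ n ∧ ¬ p ^ 2 ∣ n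

theorem Ns_card (N z : ℕ) : ((Ns N z).card : ℝ) ≤ (Sm N z).card + 2 * N / (z + 1) := by
  classical
  have h1 : Ns N z ⊆ Sm N z ∪ (Ioo z (N + 1)).biUnion fun d => (Ioc 0 N).filter (fun n => d ^ 2 ∣ n) := by
    intro n hn
    unfold Ns at hn
    rw [mem_filter, mem_Icc] at hn
    obtain ⟨⟨hn1, hn2⟩, hn3⟩ := hn
    rw [mem_union]
    by_cases h : ∀ p : ℕ, p.Prime → p ∣ n → p ≤ z
    · left
      unfold Sm
      rw [mem_filter, mem_Icc]
      exact ⟨⟨hn1, hn2⟩, h⟩
    · right
      push Not at h
      obtain ⟨p, hp, hpn, hpz⟩ := h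
      have h2 : p ^ 2 ∣ n := by
        by_contra hcon
        exact hn3 ⟨p, hp, hpz, hpn, hcon⟩
      rw [mem_biUnion]
      refine ⟨p, ?_, ?_⟩
      · rw [mem_Ioo]
        exact ⟨hpz, Nat.lt_succ_of_le ((Nat.le_of_dvd hn1 hpn).trans hn2)⟩
      · rw [mem_filter, mem_Ioc]
        exact ⟨⟨hn1, hn2⟩, h2⟩
  have h2 := (card_le_card h1).trans ((card_union_le _ _).trans
    (Nat.add_le_add_left card_biUnion_le _))
  have h3 : ∑ d ∈ Ioo z (N + 1), (((Ioc 0 N).filter (fun n => d ^ 2 ∣ n)).card : ℝ) ≤
      2 * N / (z + 1) := by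
    have h4 : ∀ d ∈ Ioo z (N + 1), (((Ioc 0 N).filter (fun n => d ^ 2 ∣ n)).card : ℝ) ≤
        N * (((d : ℝ) ^ 2)⁻¹) := by
      intro d _
      rw [Nat.Ioc_filter_dvd_card_eq_div]
      have h5 : ((N / d ^ 2 : ℕ) : ℝ) ≤ (N : ℝ) / ((d ^ 2 : ℕ) : ℝ) := Nat.cast_div_le
      push_cast at h5
      rw [← div_eq_mul_inv]
      exact h5
    refine (sum_le_sum h4).trans ?_
    rw [← mul_sum]
    have h5 := sum_Ioo_inv_sq_le (α := ℝ) z (N + 1)
    calc (N : ℝ) * ∑ d ∈ Ioo z (N + 1), (((d : ℝ) ^ 2)⁻¹) ≤ N * (2 / (z + 1)) := by gcongr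
      _ = _ := by ring
  have h4 : ((Ns N z).card : ℝ) ≤ (Sm N z).card +
      ∑ d ∈ Ioo z (N + 1), (((Ioc 0 N).filter (fun n => d ^ 2 ∣ n)).card : ℝ) := by
    exact_mod_cast h2
  linarith

end Pool.Agent.H73.PH
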